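import Mathlib
import Pool.Agent.Lib.lead.Girth

set_option autoImplicit false

namespace Pool.Agent.Results.MP_8cd00c_co.Counter

open Classical SimpleGraph

/-- An edge colouring is woody if no cycle is monochromatic. -/
def Woody {V : Type} (G : SimpleGraph V) (c : Sym2 V → ℕ) : Prop :=
  ∀ (v : V) (p : G.Walk v v), p.IsCycle → ¬ ∃ i, ∀ e ∈ p.edges, c e = i

/-- An edge colouring is strongly woody if no broken cycle (a cycle minus one of its edges) is
monochromatic. -/
def StronglyWoody {V : Type} (G : SimpleGraph V) (c : Sym2 V → ℕ) : Prop :=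
  ∀ (v : V) (p : G.Walk v v), p.IsCycle → ∀ e ∈ p.edges, ¬ ∃ i, ∀ f ∈ p.edges, f ≠ e → c f = i

/-- Arboricity: least number of colours in a woody edge colouring. -/
noncomputable def arb {V : Type} (G : SimpleGraph V) : ℕ :=
  sInf {k | ∃ c : Sym2 V → ℕ, (∀ e ∈ G.edgeSet, c e < k) ∧ Woody G c}

/-- Strong arboricity: least number of colours in a strongly woody edge colouring. -/
noncomputable def zeta {V : Type} (G : SimpleGraph V) : ℕ :=
  sInf {k | ∃ c : Sym2 V → ℕ, (∀ e ∈ G.edgeSet, c e < k) ∧ StronglyWoody G c}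

variable {V : Type}

def cls (G : SimpleGraph V) (c : Sym2 V → ℕ) (i : ℕ) : SimpleGraph V where
  Adj x y := G.Adj x y ∧ c s(x, y) = i
  symm := ⟨fun x y h => ⟨h.1.symm, by rw [Sym2.eq_swap]; exact h.2⟩⟩
  loopless := ⟨fun x h => G.loopless.1 x h.1⟩

lemma mem_cls {G : SimpleGraph V} {c : Sym2 V → ℕ} {i : ℕ} {e : Sym2 V} :
    e ∈ (cls G c i).edgeSet ↔ e ∈ G.edgeSet ∧ c e = i := by
  induction e using Sym2.ind with
  | _ x y => rfl

lemma woody_iff (G : SimpleGraph V) (c : Sym2 V → ℕ) :
    Woody G c ↔ ∀ i, (cls G c i).IsAcyclic := by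
  constructor
  · intro h i v p hp
    have hs : ∀ e ∈ p.edges, e ∈ G.edgeSet := fun e he =>
      (mem_cls.1 (p.edges_subset_edgeSet he)).1
    refine h v (p.transfer G hs) (hp.transfer hs) ⟨i, fun e he => ?_⟩
    rw [Walk.edges_transfer] at he
    exact (mem_cls.1 (p.edges_subset_edgeSet he)).2
  · rintro h v p hp ⟨i, hi⟩
    have hs : ∀ e ∈ p.edges, e ∈ (cls G c i).edgeSet := fun e he =>
      mem_cls.2 ⟨p.edges_subset_edgeSet he, hi e he⟩
    exact h i _ (hp.transfer hs)

lemma woody_of_strong {G : SimpleGraph V} {c : Sym2 V → ℕ} (h : StronglyWoody G c) :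
    Woody G c := by
  rintro v p hp ⟨i, hi⟩
  obtain ⟨e, he⟩ := p.edges.exists_mem_of_ne_nil (by simp [hp.not_nil])
  exact h v p hp e he ⟨i, fun f hf _ => hi f hf⟩

lemma not_reach {G : SimpleGraph V} {c : Sym2 V → ℕ} (h : StronglyWoody G c) {x y : V}
    (hxy : G.Adj x y) {i : ℕ} (hi : c s(x, y) ≠ i) : ¬ (cls G c i).Reachable x y := by
  intro hr
  obtain ⟨p, hp⟩ := hr.symm.exists_isPath
  have hs : ∀ e ∈ p.edges, e ∈ G.edgeSet := fun e he =>
    (mem_cls.1 (p.edges_subset_edgeSet he)).1
  have hn : s(x, y) ∉ (p.transfer G hs).edges := by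
    rw [Walk.edges_transfer]
    intro he
    exact hi (mem_cls.1 (p.edges_subset_edgeSet he)).2
  have hc : (Walk.cons hxy (p.transfer G hs)).IsCycle :=
    (Walk.cons_isCycle_iff _ _).2 ⟨hp.transfer hs, hn⟩
  refine h x _ hc s(x, y) (by simp) ⟨i, fun f hf hne => ?_⟩
  rw [Walk.edges_cons, List.mem_cons, Walk.edges_transfer] at hf
  rcases hf with hf | hf
  · exact absurd hf hne
  · exact (mem_cls.1 (p.edges_subset_edgeSet hf)).2

/-- The exchange step. -/
lemma extend {H : SimpleGraph V} {c : Sym2 V → ℕ} {k : ℕ} (hk : 2 ≤ k)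
    (hc : ∀ e ∈ H.edgeSet, c e < k) (h : StronglyWoody H c) {u v : V} (huv : u ≠ v)
    (hn : ¬ H.Adj u v) :
    ∃ c' : Sym2 V → ℕ, (∀ e ∈ (H ⊔ edge u v).edgeSet, c' e < k) ∧ Woody (H ⊔ edge u v) c' := by
  have hw := (woody_iff H c).1 (woody_of_strong h)
  by_cases hr : (cls H c 0).Reachable u v
  · obtain ⟨p, hp⟩ := hr.exists_isPath
    cases p with
    | nil => exact absurd rfl huv
    | @cons _ w _ huw q =>
      have hq := (Walk.cons_isPath_iff _ _).1 hp
      have hf : s(u, w) ∉ q.edges := fun he => hq.2 (q.fst_mem_support_of_mem_edges he)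
      have hb : ¬ ((cls H c 0).deleteEdges {s(u, w)}).Reachable u w :=
        isAcyclic_iff_forall_adj_isBridge.1 (hw 0) huw
      have hwv : ((cls H c 0).deleteEdges {s(u, w)}).Reachable w v :=
        ⟨q.toDeleteEdges {s(u, w)} (fun e he hm => hf (by
          rw [Set.mem_singleton_iff] at hm; exact hm ▸ he))⟩
      have h0 : ¬ ((cls H c 0).deleteEdges {s(u, w)}).Reachable u v :=
        fun hh => hb (hh.trans hwv.symm)
      have h1 : ¬ (cls H c 1).Reachable u w :=
        not_reach h huw.1 (by rw [huw.2]; omega)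
      have hef : s(u, w) ≠ s(u, v) := by
        intro he
        have : s(u, v) ∈ H.edgeSet := he ▸ huw.1
        exact hn this
      refine ⟨fun e => if e = s(u, v) then 0 else if e = s(u, w) then 1 else c e, ?_, ?_⟩
      · intro e he
        rw [edgeSet_sup] at he
        by_cases e1 : e = s(u, v)
        · simp only [e1, if_true]; omega
        · by_cases e2 : e = s(u, w)
          · simp only [e2, hef, if_true, if_false]; omega
          · simp only [e1, e2, if_false]
            rcases he with he | he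
            · exact hc e he
            · rw [edgeSet_edge_of_ne huv] at he
              exact absurd he e1
      · rw [woody_iff]
        intro i
        by_cases i0 : i = 0
        · subst i0
          refine IsAcyclic.anti ?_
            (IsAcyclic.sup_edge_of_not_reachable h0 ((hw 0).anti (deleteEdges_le _)))
          rw [← edgeSet_subset_edgeSet]
          intro e he
          rw [mem_cls, edgeSet_sup, edgeSet_edge_of_ne huv] at he
          rw [edgeSet_sup, edgeSet_edge_of_ne huv, edgeSet_deleteEdges]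
          by_cases e1 : e = s(u, v)
          · exact Or.inr e1
          · by_cases e2 : e = s(u, w)
            · simp [e2, hef] at he
            · simp only [e1, e2, if_false] at he
              exact Or.inl ⟨mem_cls.2 ⟨he.1.resolve_right e1, he.2⟩, e2⟩
        · by_cases i1 : i = 1
          · subst i1
            refine IsAcyclic.anti ?_ (IsAcyclic.sup_edge_of_not_reachable h1 (hw 1))
            rw [← edgeSet_subset_edgeSet]
            intro e he
            rw [mem_cls, edgeSet_sup, edgeSet_edge_of_ne huv] at he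
            rw [edgeSet_sup, edgeSet_edge_of_ne huw.ne]
            by_cases e1 : e = s(u, v)
            · simp [e1] at he
            · by_cases e2 : e = s(u, w)
              · exact Or.inr e2
              · simp only [e1, e2, if_false] at he
                exact Or.inl (mem_cls.2 ⟨he.1.resolve_right e1, he.2⟩)
          · refine IsAcyclic.anti ?_ (hw i)
            rw [← edgeSet_subset_edgeSet]
            intro e he
            rw [mem_cls, edgeSet_sup, edgeSet_edge_of_ne huv] at he
            by_cases e1 : e = s(u, v)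
            · simp only [e1, if_true] at he
              exact absurd he.2.symm i0
            · by_cases e2 : e = s(u, w)
              · simp only [e2, hef, if_true, if_false] at he
                exact absurd he.2.symm i1
              · simp only [e1, e2, if_false] at he
                exact mem_cls.2 ⟨he.1.resolve_right e1, he.2⟩
  · refine ⟨fun e => if e = s(u, v) then 0 else c e, ?_, ?_⟩
    · intro e he
      rw [edgeSet_sup] at he
      by_cases e1 : e = s(u, v)
      · simp only [e1, if_true]; omega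
      · simp only [e1, if_false]
        rcases he with he | he
        · exact hc e he
        · rw [edgeSet_edge_of_ne huv] at he
          exact absurd he e1
    · rw [woody_iff]
      intro i
      by_cases i0 : i = 0
      · subst i0
        refine IsAcyclic.anti ?_ (IsAcyclic.sup_edge_of_not_reachable hr (hw 0))
        rw [← edgeSet_subset_edgeSet]
        intro e he
        rw [mem_cls, edgeSet_sup, edgeSet_edge_of_ne huv] at he
        rw [edgeSet_sup, edgeSet_edge_of_ne huv]
        by_cases e1 : e = s(u, v)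
        · exact Or.inr e1
        · simp only [e1, if_false] at he
          exact Or.inl (mem_cls.2 ⟨he.1.resolve_right e1, he.2⟩)
      · refine IsAcyclic.anti ?_ (hw i)
        rw [← edgeSet_subset_edgeSet]
        intro e he
        rw [mem_cls, edgeSet_sup, edgeSet_edge_of_ne huv] at he
        by_cases e1 : e = s(u, v)
        · simp only [e1, if_true] at he
          exact absurd he.2.symm i0
        · simp only [e1, if_false] at he
          exact mem_cls.2 ⟨he.1.resolve_right e1, he.2⟩

lemma acyc_card {n : ℕ} (hn : 0 < n) (F : SimpleGraph (Fin n)) (hF : F.IsAcyclic) :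
    F.edgeSet.ncard + 1 ≤ n := by
  haveI : Nonempty (Fin n) := ⟨⟨0, hn⟩⟩
  obtain ⟨T, h1, -, h3⟩ := (connected_top (V := Fin n)).exists_isTree_le_of_le_of_isAcyclic
    le_top hF
  have h4 := h3.card_edgeFinset
  have e2 : T.edgeSet.ncard = T.edgeFinset.card := by
    rw [← SimpleGraph.coe_edgeFinset, Set.ncard_coe_finset]
  have h5 : F.edgeSet.ncard ≤ T.edgeSet.ncard :=
    Set.ncard_le_ncard (edgeSet_mono h1) (Set.toFinite _)
  rw [Fintype.card_fin] at h4
  omega

lemma woody_card {n : ℕ} (hn : 0 < n) (G : SimpleGraph (Fin n)) (c : Sym2 (Fin n) → ℕ)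
    (h : Woody G c) (k : ℕ) : {e | e ∈ G.edgeSet ∧ c e < k}.ncard + k ≤ k * n := by
  induction k with
  | zero => simp
  | succ k ih =>
    have e : {e | e ∈ G.edgeSet ∧ c e < k + 1} =
        {e | e ∈ G.edgeSet ∧ c e < k} ∪ (cls G c k).edgeSet := by
      ext e
      simp only [Set.mem_setOf_eq, Set.mem_union, mem_cls]
      constructor
      · rintro ⟨h1, h2⟩
        rcases Nat.lt_succ_iff_lt_or_eq.1 h2 with h3 | h3
        · exact Or.inl ⟨h1, h3⟩
        · exact Or.inr ⟨h1, h3⟩
      · rintro (⟨h1, h2⟩ | ⟨h1, h2⟩)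
        · exact ⟨h1, by omega⟩
        · exact ⟨h1, by omega⟩
    have h1 := Set.ncard_union_le {e | e ∈ G.edgeSet ∧ c e < k} (cls G c k).edgeSet
    have h2 := acyc_card hn _ ((woody_iff G c).1 h k)
    rw [e, Nat.succ_mul]
    omega

open Pool.Agent.Lib.LeadGirth in
lemma girth_of_sparse {n g : ℕ} (T : SimpleGraph (Fin n)) (h : Sparse (g + 1) T) :
    (g : ℕ∞) ≤ T.egirth := by
  rw [le_egirth]
  intro a p hp
  by_contra hlt
  have hl : p.length < g := by
    have := not_le.1 hlt
    exact_mod_cast this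
  have hS : p.support.toFinset.card ≤ g + 1 :=
    (List.toFinset_card_le _).trans (by rw [Walk.length_support]; omega)
  have hy : ∃ y ∈ p.support.toFinset, y ≠ a := by
    have h2 := hp.ncard_neighborSet_toSubgraph_eq_two p.start_mem_support
    obtain ⟨y, hy⟩ := Set.nonempty_of_ncard_ne_zero (s := p.toSubgraph.neighborSet a) (by omega)
    have hy' : p.toSubgraph.Adj a y := hy
    exact ⟨y, List.mem_toFinset.2 (p.mem_support_of_adj_toSubgraph hy'.symm), hy'.adj_sub.ne'⟩
  obtain ⟨x, hx, -, hc⟩ := h _ hS a hy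
  have h2 := hp.ncard_neighborSet_toSubgraph_eq_two (List.mem_toFinset.1 hx)
  have h3 : p.toSubgraph.neighborSet x ⊆ (nb T p.support.toFinset x : Set (Fin n)) := by
    intro y hy
    have hy' : p.toSubgraph.Adj x y := hy
    exact Finset.mem_coe.2 (mem_nb.2
      ⟨List.mem_toFinset.2 (p.mem_support_of_adj_toSubgraph hy'.symm), hy'.adj_sub⟩)
  have h4 := Set.ncard_le_ncard h3 (Set.toFinite _)
  rw [Set.ncard_coe_finset] at h4
  omega

lemma strong_exists {n : ℕ} (G : SimpleGraph (Fin n)) :
    ∃ k, ∃ c : Sym2 (Fin n) → ℕ, (∀ e ∈ G.edgeSet, c e < k) ∧ StronglyWoody G c := by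
  refine ⟨Fintype.card (Sym2 (Fin n)), fun e => (Fintype.equivFin _ e : ℕ),
    fun e _ => (Fintype.equivFin _ e).2, ?_⟩
  rintro v p hp e - ⟨i, hi⟩
  have h3 := hp.three_le_length
  have hnd := hp.isTrail.edges_nodup
  rw [← Walk.length_edges] at h3
  have inj : ∀ a b : Sym2 (Fin n), a ∈ p.edges → b ∈ p.edges → a ≠ e → b ≠ e → a = b := by
    intro a b ha hb ha' hb'
    have := (hi a ha ha').trans (hi b hb hb').symm
    exact (Fintype.equivFin _).injective (Fin.ext this)
  generalize p.edges = l at h3 hnd inj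
  match l, h3, hnd, inj with
  | a :: b :: d :: t, _, hnd, inj =>
    simp only [List.nodup_cons, List.mem_cons, not_or] at hnd
    by_cases ha : a = e
    · subst ha
      exact hnd.2.1.1 (inj b d (by simp) (by simp) (Ne.symm hnd.1.1) (Ne.symm hnd.1.2.1))
    · by_cases hb : b = e
      · subst hb
        exact hnd.1.2.1 (inj a d (by simp) (by simp) ha (Ne.symm hnd.2.1.1))
      · exact hnd.1.1 (inj a b (by simp) (by simp) ha hb)

lemma main (k : ℕ) (hk : 2 ≤ k) (g : ℕ) : ∃ (n : ℕ) (G : SimpleGraph (Fin n)),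
    (g : ℕ∞) ≤ G.egirth ∧ arb G ≤ k ∧ k < zeta G := by
  obtain ⟨n, hn, T, hT, hcard⟩ := Pool.Agent.Lib.LeadGirth.exists_dense (g + 1) k
  obtain ⟨H, ⟨h1, c0, hc0, hw0⟩, hm⟩ := exists_maximal_of_wellFoundedGT
    (fun H : SimpleGraph (Fin n) => H ≤ T ∧
      ∃ c : Sym2 (Fin n) → ℕ, (∀ e ∈ H.edgeSet, c e < k) ∧ Woody H c)
    ⟨⊥, bot_le, fun _ => 0, by simp, fun v p hp _ => isAcyclic_bot p hp⟩
  refine ⟨n, H, (girth_of_sparse T hT).trans (egirth_anti h1), Nat.sInf_le ⟨c0, hc0, hw0⟩, ?_⟩
  by_contra hz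
  obtain ⟨c, hc, hs⟩ := Nat.sInf_mem (s := {k | ∃ c : Sym2 (Fin n) → ℕ,
    (∀ e ∈ H.edgeSet, c e < k) ∧ StronglyWoody H c}) (strong_exists H)
  have hc' : ∀ e ∈ H.edgeSet, c e < k := fun e he => lt_of_lt_of_le (hc e he) (not_lt.1 hz)
  have hne : ∃ u v, T.Adj u v ∧ ¬ H.Adj u v := by
    by_contra hh
    push Not at hh
    have e : H = T := le_antisymm h1 (fun u v h => hh u v h)
    subst e
    have h2 := woody_card (by omega) H c0 hw0 k
    have e2 : {e | e ∈ H.edgeSet ∧ c0 e < k} = H.edgeSet := by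
      ext e
      exact ⟨fun h => h.1, fun h => ⟨h, hc0 e h⟩⟩
    rw [e2] at h2
    omega
  obtain ⟨u, v, huv, hn'⟩ := hne
  have h3 := hm (y := H ⊔ edge u v)
    ⟨sup_le h1 (by rw [edge_le_iff]; exact Or.inr huv), extend hk hc' hs huv.ne hn'⟩ le_sup_left
  exact hn' (h3 (Or.inr (by rw [edge_adj]; exact ⟨Or.inl ⟨rfl, rfl⟩, huv.ne⟩)))

theorem result :
    (∀ k : ℕ, 2 ≤ k → ∀ g : ℕ, ∃ (n : ℕ) (G : SimpleGraph (Fin n)),
      (g : ℕ∞) ≤ G.egirth ∧ arb G ≤ k ∧ k < zeta G) ∧
    ¬ (∀ k : ℕ, 1 ≤ k → ∃ g : ℕ, ∀ (n : ℕ) (G : SimpleGraph (Fin n)),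
      arb G ≤ k → (g : ℕ∞) ≤ G.egirth → zeta G = arb G) := by
  refine ⟨main, fun h => ?_⟩
  obtain ⟨g, hg⟩ := h 2 (by norm_num)
  obtain ⟨n, G, h1, h2, h3⟩ := main 2 le_rfl g
  have := hg n G h2 h1
  omega

end Pool.Agent.Results.MP_8cd00c_co.Counter
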